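import Pool.Agent.BER.StmtsE

/-!
# Squad BER, row GPA: gaps
-/

namespace Pool.Agent.BER.H34

open Set Filter Topology Pool.Agent.BER

/-- the multiples of `a > 0` are discrete -/
theorem gpa_disc (a y : ℝ) (ha : 0 < a) :
    ∃ δ : ℝ, 0 < δ ∧ ∀ q : ℤ, y = q * a ∨ δ ≤ |y - q * a| := by
  have h0 : (⌊y / a⌋ : ℝ) * a ≤ y := by
    have := Int.floor_le (y / a)
    rwa [le_div_iff₀ ha] at this
  have h1 : y < ((⌊y / a⌋ : ℝ) + 1) * a := by
    have := Int.lt_floor_add_one (y / a)
    rwa [div_lt_iff₀ ha] at this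
  set m : ℤ := ⌊y / a⌋ with hm
  have key : ∀ q : ℤ, q = m ∨ (q : ℝ) + 1 ≤ m ∨ (m : ℝ) + 1 ≤ q := by
    intro q
    rcases lt_trichotomy q m with h | h | h
    · right; left; exact_mod_cast h
    · left; exact h
    · right; right; exact_mod_cast h
  by_cases hy : y = m * a
  · refine ⟨a, ha, fun q => ?_⟩
    rcases key q with h | h | h
    · left; rw [h]; exact hy
    · right
      rw [hy]
      have : a ≤ (m : ℝ) * a - q * a := by nlinarith
      exact this.trans (le_abs_self _)
    · right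
      rw [hy]
      have : a ≤ -((m : ℝ) * a - q * a) := by nlinarith
      exact this.trans (neg_le_abs _)
  · have h2 : 0 < y - m * a := by
      rcases h0.eq_or_lt with h | h
      · exact absurd h.symm hy
      · linarith
    refine ⟨min (y - m * a) (((m : ℝ) + 1) * a - y), lt_min h2 (by linarith), fun q => ?_⟩
    right
    rcases key q with h | h | h
    · rw [h]
      exact (min_le_left _ _).trans (le_abs_self _)
    · have : y - m * a ≤ y - q * a := by nlinarith
      exact (min_le_left _ _).trans (this.trans (le_abs_self _))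
    · have : ((m : ℝ) + 1) * a - y ≤ -(y - q * a) := by nlinarith
      exact (min_le_right _ _).trans (this.trans (neg_le_abs _))

theorem gpa_one (c β : ℝ) (Z : Set ℝ) (hc : c ≠ 0) (hZ : Zas c β Z) (x0 : ℝ) (hx0 : 0 < x0)
    (j : ℕ) (hj : 1 ≤ j) : ∃ N : ℕ, ∀ n : ℕ, N ≤ n →
    ¬ ((n : ℝ) * x0 ∈ Z ∧ ((n : ℝ) + 2 * j) * x0 ∈ Z) := by
  obtain ⟨C, X0, hC, hX0, hz⟩ := hZ
  have hjr : (1 : ℝ) ≤ (j : ℝ) := by exact_mod_cast hj
  have hcp : 0 < |c| := abs_pos.2 hc
  by_cases h : ∃ l : ℤ, 2 * (j : ℝ) * x0 = l * Real.pi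
  · obtain ⟨l, hl⟩ := h
    set a : ℝ := Real.pi / (2 * j) with ha
    have ha0 : 0 < a := by
      have := Real.pi_pos
      positivity
    obtain ⟨δ, hδ, hd⟩ := gpa_disc a β ha0
    obtain ⟨N, hN⟩ := exists_nat_ge ((X0 + 1 + 2 * C / |c| + (|c| + C) / δ) / x0)
    refine ⟨N, fun n hn => ?_⟩
    rintro ⟨h1, -⟩
    have hnN : (N : ℝ) ≤ n := by exact_mod_cast hn
    have hx : X0 + 1 + 2 * C / |c| + (|c| + C) / δ ≤ n * x0 := by
      have : (X0 + 1 + 2 * C / |c| + (|c| + C) / δ) / x0 ≤ n := hN.trans hnN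
      rwa [div_le_iff₀ hx0] at this
    set x : ℝ := n * x0 with hxdef
    have p1 : 0 ≤ 2 * C / |c| := by positivity
    have p2 : 0 ≤ (|c| + C) / δ := by positivity
    have hx1 : 1 ≤ x := by linarith
    have hxp : 0 < x := by linarith
    obtain ⟨k, hk⟩ := hz x h1 (by linarith)
    -- `x - β - k π` is a multiple of `a` minus `β`
    have e : x - k * Real.pi = ((n * l - 2 * j * k : ℤ) : ℝ) * a := by
      have hj0 : (j : ℝ) ≠ 0 := by linarith
      have e1 : x0 = l * a := by
        rw [ha]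
        field_simp
        linarith
      have e2 : Real.pi = 2 * j * a := by
        rw [ha]
        field_simp
      rw [hxdef, e1]
      push_cast
      nth_rewrite 1 [e2]
      ring
    have e3 : |x - β - k * Real.pi| ≤ |c| / (2 * x) + C / x ^ 2 := by
      have e4 : x - β - k * Real.pi = (x - β - k * Real.pi + c / (2 * x)) - c / (2 * x) := by ring
      rw [e4]
      refine (abs_sub _ _).trans ?_
      have e5 : |c / (2 * x)| = |c| / (2 * x) := by
        rw [abs_div, abs_of_pos (by linarith : (0 : ℝ) < 2 * x)]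
      rw [e5]
      linarith
    rcases hd (n * l - 2 * j * k) with h2 | h2
    · -- the multiple is `β`
      have h3 : x - β - k * Real.pi = 0 := by
        have : x - β - k * Real.pi = (x - k * Real.pi) - β := by ring
        rw [this, e, ← h2, sub_self]
      rw [h3, zero_add, abs_div, abs_of_pos (by linarith : (0 : ℝ) < 2 * x),
        div_le_div_iff₀ (by linarith) (by positivity)] at hk
      have h4 : |c| * x ≤ 2 * C := by
        have h5 : x * (|c| * x) ≤ x * (2 * C) := by nlinarith
        exact le_of_mul_le_mul_left h5 hxp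
      have h6 : 2 * C / |c| < x := by linarith
      rw [div_lt_iff₀ hcp] at h6
      nlinarith
    · have h3 : δ ≤ |c| / (2 * x) + C / x ^ 2 := by
        refine h2.trans ?_
        have : β - ((n * l - 2 * j * k : ℤ) : ℝ) * a = -(x - β - k * Real.pi) := by
          rw [← e]; ring
        rw [this, abs_neg]
        exact e3
      have h4 : |c| / (2 * x) ≤ |c| / x := by
        rw [div_le_div_iff₀ (by linarith) hxp]
        nlinarith
      have h5 : C / x ^ 2 ≤ C / x := by
        rw [div_le_div_iff₀ (by positivity) hxp]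
        have : x ≤ x ^ 2 := by nlinarith
        exact mul_le_mul_of_nonneg_left this hC.le
      have h6 : δ ≤ (|c| + C) / x := by
        rw [add_div]
        linarith
      rw [le_div_iff₀ hxp] at h6
      have h7 : (|c| + C) / δ < x := by linarith
      rw [div_lt_iff₀ hδ] at h7
      nlinarith
  · obtain ⟨δ, hδ, hd⟩ := gpa_disc Real.pi (2 * (j : ℝ) * x0) Real.pi_pos
    set D : ℝ := 2 * C + |c| * (j * x0) with hD
    have hD0 : 0 < D := by positivity
    obtain ⟨N, hN⟩ := exists_nat_ge ((X0 + 1 + D / δ) / x0)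
    refine ⟨N, fun n hn => ?_⟩
    rintro ⟨h1, h2⟩
    have hnN : (N : ℝ) ≤ n := by exact_mod_cast hn
    have hx : X0 + 1 + D / δ ≤ n * x0 := by
      have : (X0 + 1 + D / δ) / x0 ≤ n := hN.trans hnN
      rwa [div_le_iff₀ hx0] at this
    have hx' : ((n : ℝ) + 2 * j) * x0 = n * x0 + 2 * j * x0 := by ring
    rw [hx'] at h2
    set x : ℝ := n * x0 with hxdef
    set y : ℝ := 2 * j * x0 with hy
    have hy0 : 0 < y := by positivity
    have p2 : 0 < D / δ := by positivity
    have hx1 : 1 ≤ x := by linarith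
    have hxp : 0 < x := by linarith
    obtain ⟨k, hk⟩ := hz x h1 (by linarith)
    obtain ⟨k', hk'⟩ := hz (x + y) h2 (by linarith)
    have e1 : C / (x + y) ^ 2 ≤ C / x ^ 2 := by
      apply div_le_div_of_nonneg_left hC.le (by positivity)
      nlinarith
    have e2 : |c / (2 * (x + y)) - c / (2 * x)| ≤ |c| * (j * x0) / x ^ 2 := by
      have : c / (2 * (x + y)) - c / (2 * x) = -(c * y / (2 * (x * (x + y)))) := by
        field_simp
        ring
      rw [this, abs_neg, abs_div, abs_mul, abs_of_pos hy0,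
        abs_of_pos (by positivity : (0 : ℝ) < 2 * (x * (x + y)))]
      rw [div_le_div_iff₀ (by positivity) (by positivity), hy]
      have h3 : x ^ 2 ≤ x * (x + y) := by nlinarith
      have h4 : 0 ≤ |c| * (j * x0) := by positivity
      calc |c| * (2 * j * x0) * x ^ 2 = (|c| * (j * x0)) * (2 * x ^ 2) := by ring
        _ ≤ (|c| * (j * x0)) * (2 * (x * (x + y))) :=
          mul_le_mul_of_nonneg_left (by linarith) h4
        _ = _ := by rw [hy]
    have e3 : |y - ((k' - k : ℤ) : ℝ) * Real.pi| ≤ D / x ^ 2 := by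
      have e4 : y - ((k' - k : ℤ) : ℝ) * Real.pi =
          ((x + y) - β - k' * Real.pi + c / (2 * (x + y))) -
          (x - β - k * Real.pi + c / (2 * x)) - (c / (2 * (x + y)) - c / (2 * x)) := by
        push_cast
        ring
      rw [e4]
      refine (abs_sub _ _).trans ?_
      have e5 := abs_sub ((x + y) - β - k' * Real.pi + c / (2 * (x + y)))
        (x - β - k * Real.pi + c / (2 * x))
      have e6 : D / x ^ 2 = C / x ^ 2 + C / x ^ 2 + |c| * (j * x0) / x ^ 2 := by
        rw [hD]
        ring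
      rw [e6]
      linarith
    rcases hd (k' - k) with h3 | h3
    · exact h ⟨k' - k, h3⟩
    · have h4 : δ ≤ D / x ^ 2 := h3.trans e3
      rw [le_div_iff₀ (by positivity)] at h4
      have h5 : D / δ < x := by linarith
      rw [div_lt_iff₀ hδ] at h5
      have h6 : x ≤ x ^ 2 := by nlinarith
      have h7 : x * δ ≤ x ^ 2 * δ := mul_le_mul_of_nonneg_right h6 hδ.le
      linarith

theorem gpa : GpaStmt := by
  intro c β Z hc hZ x0 p hx0
  have key : ∀ j : ℕ, 1 ≤ j → ∃ N : ℕ, ∀ n : ℕ, N ≤ n →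
      ¬ ((n : ℝ) * x0 ∈ Z ∧ ((n : ℝ) + 2 * j) * x0 ∈ Z) :=
    fun j hj => gpa_one c β Z hc hZ x0 hx0 j hj
  choose! Nf hNf using key
  refine ⟨∑ j ∈ Finset.range (p + 1), Nf j, fun n hn j hj hjp => ?_⟩
  refine hNf j hj n (le_trans ?_ hn)
  exact Finset.single_le_sum (f := Nf) (fun i _ => Nat.zero_le _)
    (Finset.mem_range.2 (by omega))

end Pool.Agent.BER.H34
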